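import Mathlib

/-!
# Binary-submodular expressibility and the cone of fans: the conjecture fails for every `k ≥ 5`

The function `f(x) = min(0, 3 - 2 x₀ - x₁ - x₂ - x₃ - x₄)` is the minimum over one extra variable `y`
of `3 y - 2 x₀ y - x₁ y - x₂ y - x₃ y - x₄ y`, so it is expressible by binary submodular functions.
If it were a nonnegative combination of fans, then every fan of positive weight would be modular
where `f` is; restricted to the first five coordinates this forces the fan to be an affine function
plus `t` times `f`, with an integer `t ≥ 0`; such a function, if monotone or antitone, varies by at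
least `3 t`, but a fan varies by at most `2`. So `t = 0` for all of them, and `f` would be modular on
the first five coordinates.
-/

set_option autoImplicit false

namespace Pool.Agent.Results.MP_09575c_lc.FailsFromFive

/-- `{0, 1} ^ k` with the coordinatewise order. -/
abbrev B (k : ℕ) : Type := Fin k → Bool

/-- Submodular functions. -/
def Submodular {k : ℕ} (f : B k → ℝ) : Prop :=
  ∀ u v : B k, f (u ⊓ v) + f (u ⊔ v) ≤ f u + f v

/-- `f` is expressible by binary submodular functions: `f(x)` is, for every `x`, the minimum over
`y ∈ {0, 1} ^ j` of `∑ i, α i * g i (z i 0, z i 1) + κ` with `α i ≥ 0`, `g i` a submodular function of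
two variables, and each of `z i 0`, `z i 1` one of the variables `x`, `y`. -/
def Expressible {n : ℕ} (f : B n → ℝ) : Prop :=
  ∃ (j r : ℕ) (g : Fin r → B 2 → ℝ) (α : Fin r → ℝ) (z : Fin r → Fin 2 → Fin n ⊕ Fin j) (κ : ℝ),
    (∀ i, Submodular (g i)) ∧ (∀ i, 0 ≤ α i) ∧
    ∀ x : B n, IsLeast (Set.range fun y : B j =>
      ∑ i, α i * g i (fun b => Sum.elim x y (z i b)) + κ) (f x)

open Classical in
/-- Upper fans. -/
def IsUpperFan {k : ℕ} (φ : B k → ℝ) : Prop :=
  ∃ A : Finset (B k), (∀ a ∈ A, ∀ b ∈ A, a ≠ b → ¬ a ≤ b) ∧
    (∀ a ∈ A, ∀ b ∈ A, a ≠ b → a ⊔ b = A.sup id) ∧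
    ∀ x, φ x = if A.sup id ≤ x then -2 else if ∃ a ∈ A, a ≤ x then -1 else 0

open Classical in
/-- Lower fans. -/
def IsLowerFan {k : ℕ} (φ : B k → ℝ) : Prop :=
  ∃ A : Finset (B k), (∀ a ∈ A, ∀ b ∈ A, a ≠ b → ¬ a ≤ b) ∧
    (∀ a ∈ A, ∀ b ∈ A, a ≠ b → a ⊓ b = A.inf id) ∧
    ∀ x, φ x = if x ≤ A.inf id then -2 else if ∃ a ∈ A, x ≤ a then -1 else 0

/-- `f` is, up to a constant, a finite nonnegative combination of fans. -/
def InFanCone {k : ℕ} (f : B k → ℝ) : Prop :=
  ∃ (r : ℕ) (c : Fin r → ℝ) (φ : Fin r → B k → ℝ) (κ : ℝ), (∀ i, 0 ≤ c i) ∧
    (∀ i, IsUpperFan (φ i) ∨ IsLowerFan (φ i)) ∧ ∀ x, f x = ∑ i, c i * φ i x + κ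

/-! ## Fans are submodular, monotone or antitone, with values `0`, `-1`, `-2` -/

/-- Integer valued submodular functions that are monotone or antitone and vary by at most two. -/
structure Nice {k : ℕ} (G : B k → ℤ) : Prop where
  sub : ∀ u v : B k, G (u ⊓ v) + G (u ⊔ v) ≤ G u + G v
  mono : (∀ u v : B k, u ≤ v → G u ≤ G v) ∨ (∀ u v : B k, u ≤ v → G v ≤ G u)
  lo : ∀ u, -2 ≤ G u
  hi : ∀ u, G u ≤ 0

theorem upper_nice {k : ℕ} {φ : B k → ℝ} (h : IsUpperFan φ) :
    ∃ G : B k → ℤ, Nice G ∧ ∀ x, φ x = G x := by
  classical
  obtain ⟨A, -, h2, h3⟩ := h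
  set T := A.sup id with hT
  have haT : ∀ a ∈ A, a ≤ T := fun a ha => Finset.le_sup (f := id) ha
  let G : B k → ℤ := fun x => if T ≤ x then -2 else if ∃ a ∈ A, a ≤ x then -1 else 0
  have hlo : ∀ u, -2 ≤ G u := by
    intro u; simp only [G]; split_ifs <;> norm_num
  have hhi : ∀ u, G u ≤ 0 := by
    intro u; simp only [G]; split_ifs <;> norm_num
  have hT2 : ∀ u, T ≤ u → G u = -2 := fun u hu => if_pos hu
  have hA1 : ∀ u, ∀ a ∈ A, a ≤ u → G u ≤ -1 := by
    intro u a ha hau
    simp only [G]
    split_ifs with h5 h6
    · norm_num
    · norm_num
    · exact absurd ⟨a, ha, hau⟩ h6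
  have hanti : ∀ u v : B k, u ≤ v → G v ≤ G u := by
    intro u v huv
    by_cases h1 : T ≤ u
    · rw [hT2 u h1, hT2 v (h1.trans huv)]
    · by_cases h4 : ∃ a ∈ A, a ≤ u
      · obtain ⟨a, ha, hau⟩ := h4
        have h5 : G u = -1 := by
          simp only [G]; rw [if_neg h1, if_pos ⟨a, ha, hau⟩]
        have h6 := hA1 v a ha (hau.trans huv)
        omega
      · have h5 : G u = 0 := by
          simp only [G]; rw [if_neg h1, if_neg h4]
        have h6 := hhi v
        omega
  refine ⟨G, ⟨?_, Or.inr hanti, hlo, hhi⟩, ?_⟩
  · intro u v
    by_cases hu : T ≤ u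
    · rw [hT2 u hu, hT2 (u ⊔ v) (hu.trans le_sup_left)]
      by_cases hv : T ≤ v
      · rw [hT2 v hv, hT2 _ (le_inf hu hv)]
      · by_cases hv' : ∃ a ∈ A, a ≤ v
        · obtain ⟨a, ha, hav⟩ := hv'
          have h5 : G v = -1 := by
            simp only [G]; rw [if_neg hv, if_pos ⟨a, ha, hav⟩]
          have h6 := hA1 (u ⊓ v) a ha (le_inf ((haT a ha).trans hu) hav)
          omega
        · have h5 : G v = 0 := by
            simp only [G]; rw [if_neg hv, if_neg hv']
          have h6 := hhi (u ⊓ v)
          omega
    · by_cases hu' : ∃ a ∈ A, a ≤ u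
      · obtain ⟨a, ha, hau⟩ := hu'
        have h4 : G u = -1 := by
          simp only [G]; rw [if_neg hu, if_pos ⟨a, ha, hau⟩]
        by_cases hv : T ≤ v
        · have h5 := hT2 v hv
          have h6 := hT2 (u ⊔ v) (hv.trans le_sup_right)
          have h7 := hA1 (u ⊓ v) a ha (le_inf hau ((haT a ha).trans hv))
          omega
        · by_cases hv' : ∃ a ∈ A, a ≤ v
          · obtain ⟨b, hb, hbv⟩ := hv'
            have h5 : G v = -1 := by
              simp only [G]; rw [if_neg hv, if_pos ⟨b, hb, hbv⟩]
            by_cases hab : a = b
            · subst hab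
              have h6 := hA1 (u ⊓ v) a ha (le_inf hau hbv)
              have h7 := hA1 (u ⊔ v) a ha (hau.trans le_sup_left)
              omega
            · have h6 : T ≤ u ⊔ v := by
                rw [← h2 a ha b hb hab]
                exact sup_le_sup hau hbv
              have h7 := hT2 _ h6
              have h8 := hhi (u ⊓ v)
              omega
          · have h5 : G v = 0 := by
              simp only [G]; rw [if_neg hv, if_neg hv']
            have h6 := hhi (u ⊓ v)
            have h7 := hA1 (u ⊔ v) a ha (hau.trans le_sup_left)
            omega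
      · have h4 : G u = 0 := by
          simp only [G]; rw [if_neg hu, if_neg hu']
        have h5 := hanti v (u ⊔ v) le_sup_right
        have h6 := hhi (u ⊓ v)
        omega
  · intro x
    rw [h3]
    simp only [G]
    split_ifs <;> norm_num

theorem lower_nice {k : ℕ} {φ : B k → ℝ} (h : IsLowerFan φ) :
    ∃ G : B k → ℤ, Nice G ∧ ∀ x, φ x = G x := by
  classical
  obtain ⟨A, -, h2, h3⟩ := h
  set T := A.inf id with hT
  have haT : ∀ a ∈ A, T ≤ a := fun a ha => Finset.inf_le (f := id) ha
  let G : B k → ℤ := fun x => if x ≤ T then -2 else if ∃ a ∈ A, x ≤ a then -1 else 0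
  have hlo : ∀ u, -2 ≤ G u := by
    intro u; simp only [G]; split_ifs <;> norm_num
  have hhi : ∀ u, G u ≤ 0 := by
    intro u; simp only [G]; split_ifs <;> norm_num
  have hT2 : ∀ u, u ≤ T → G u = -2 := fun u hu => if_pos hu
  have hA1 : ∀ u, ∀ a ∈ A, u ≤ a → G u ≤ -1 := by
    intro u a ha hau
    simp only [G]
    split_ifs with h5 h6
    · norm_num
    · norm_num
    · exact absurd ⟨a, ha, hau⟩ h6
  have hmono : ∀ u v : B k, u ≤ v → G u ≤ G v := by
    intro u v huv
    by_cases h1 : v ≤ T
    · rw [hT2 v h1, hT2 u (huv.trans h1)]
    · by_cases h4 : ∃ a ∈ A, v ≤ a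
      · obtain ⟨a, ha, hau⟩ := h4
        have h5 : G v = -1 := by
          simp only [G]; rw [if_neg h1, if_pos ⟨a, ha, hau⟩]
        have h6 := hA1 u a ha (huv.trans hau)
        omega
      · have h5 : G v = 0 := by
          simp only [G]; rw [if_neg h1, if_neg h4]
        have h6 := hhi u
        omega
  refine ⟨G, ⟨?_, Or.inl hmono, hlo, hhi⟩, ?_⟩
  · intro u v
    by_cases hu : u ≤ T
    · rw [hT2 u hu, hT2 (u ⊓ v) (inf_le_left.trans hu)]
      by_cases hv : v ≤ T
      · rw [hT2 v hv, hT2 _ (sup_le hu hv)]
      · by_cases hv' : ∃ a ∈ A, v ≤ a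
        · obtain ⟨a, ha, hav⟩ := hv'
          have h5 : G v = -1 := by
            simp only [G]; rw [if_neg hv, if_pos ⟨a, ha, hav⟩]
          have h6 := hA1 (u ⊔ v) a ha (sup_le (hu.trans (haT a ha)) hav)
          omega
        · have h5 : G v = 0 := by
            simp only [G]; rw [if_neg hv, if_neg hv']
          have h6 := hhi (u ⊔ v)
          omega
    · by_cases hu' : ∃ a ∈ A, u ≤ a
      · obtain ⟨a, ha, hau⟩ := hu'
        have h4 : G u = -1 := by
          simp only [G]; rw [if_neg hu, if_pos ⟨a, ha, hau⟩]
        by_cases hv : v ≤ T
        · have h5 := hT2 v hv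
          have h6 := hT2 (u ⊓ v) (inf_le_right.trans hv)
          have h7 := hA1 (u ⊔ v) a ha (sup_le hau (hv.trans (haT a ha)))
          omega
        · by_cases hv' : ∃ a ∈ A, v ≤ a
          · obtain ⟨b, hb, hbv⟩ := hv'
            have h5 : G v = -1 := by
              simp only [G]; rw [if_neg hv, if_pos ⟨b, hb, hbv⟩]
            by_cases hab : a = b
            · subst hab
              have h6 := hA1 (u ⊔ v) a ha (sup_le hau hbv)
              have h7 := hA1 (u ⊓ v) a ha (inf_le_left.trans hau)
              omega
            · have h6 : u ⊓ v ≤ T := by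
                rw [← h2 a ha b hb hab]
                exact inf_le_inf hau hbv
              have h7 := hT2 _ h6
              have h8 := hhi (u ⊔ v)
              omega
          · have h5 : G v = 0 := by
              simp only [G]; rw [if_neg hv, if_neg hv']
            have h6 := hhi (u ⊔ v)
            have h7 := hA1 (u ⊓ v) a ha (inf_le_left.trans hau)
            omega
      · have h4 : G u = 0 := by
          simp only [G]; rw [if_neg hu, if_neg hu']
        have h5 := hmono (u ⊓ v) v inf_le_right
        have h6 := hhi (u ⊔ v)
        omega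
  · intro x
    rw [h3]
    simp only [G]
    split_ifs <;> norm_num

/-! ## The function -/

/-- `0` or `1` -/
def t (b : Bool) : ℝ := if b then 1 else 0

/-- The weight of a point. -/
def wt {n : ℕ} (x : B (n + 5)) : ℝ := 2 * t (x 0) + t (x 1) + t (x 2) + t (x 3) + t (x 4)

/-- The function `min(0, 3 - 2 x₀ - x₁ - x₂ - x₃ - x₄)`. -/
noncomputable def F (n : ℕ) (x : B (n + 5)) : ℝ := min 0 (3 - wt x)

theorem t_nonneg (b : Bool) : 0 ≤ t b := by unfold t; split_ifs <;> norm_num

theorem t_inf_sup (a b : Bool) : t (a ⊓ b) + t (a ⊔ b) = t a + t b := by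
  cases a <;> cases b <;> simp [t]

theorem t_inf_le (a b : Bool) : t (a ⊓ b) ≤ t a := by
  cases a <;> cases b <;> simp [t]

theorem t_inf_le' (a b : Bool) : t (a ⊓ b) ≤ t b := by
  cases a <;> cases b <;> simp [t]

theorem F_submodular (n : ℕ) : Submodular (F n) := by
  intro u v
  have e : wt (u ⊓ v) + wt (u ⊔ v) = wt u + wt v := by
    have h := fun i : Fin (n + 5) => t_inf_sup (u i) (v i)
    simp only [wt, Pi.inf_apply, Pi.sup_apply]
    linarith [h 0, h 1, h 2, h 3, h 4]
  have e1 : wt (u ⊓ v) ≤ wt u := by
    have h := fun i : Fin (n + 5) => t_inf_le (u i) (v i)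
    simp only [wt, Pi.inf_apply]
    linarith [h 0, h 1, h 2, h 3, h 4]
  have e2 : wt (u ⊓ v) ≤ wt v := by
    have h := fun i : Fin (n + 5) => t_inf_le' (u i) (v i)
    simp only [wt, Pi.inf_apply]
    linarith [h 0, h 1, h 2, h 3, h 4]
  unfold F
  rcases le_total 0 (3 - wt u) with h1 | h1 <;> rcases le_total 0 (3 - wt v) with h2 | h2 <;>
  rcases le_total 0 (3 - wt (u ⊓ v)) with h3 | h3 <;>
  rcases le_total 0 (3 - wt (u ⊔ v)) with h4 | h4 <;>
  simp only [min_eq_left h1, min_eq_left h2, min_eq_left h3, min_eq_left h4, min_eq_right h1,
    min_eq_right h2, min_eq_right h3, min_eq_right h4] <;> linarith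

/-- The binary function `-x y`. -/
def gm (p : B 2) : ℝ := -(t (p 0) * t (p 1))

/-- The binary function `x`. -/
def gp (p : B 2) : ℝ := t (p 0)

theorem gm_submodular : Submodular gm := by
  intro u v
  simp only [gm, Pi.inf_apply, Pi.sup_apply]
  generalize u 0 = a, u 1 = b, v 0 = c, v 1 = d
  cases a <;> cases b <;> cases c <;> cases d <;> simp [t]

theorem gp_submodular : Submodular gp := by
  intro u v
  simp only [gp, Pi.inf_apply, Pi.sup_apply]
  exact (t_inf_sup _ _).le

theorem F_expressible (n : ℕ) : Expressible (F n) := by
  refine ⟨1, 6, ![gp, gm, gm, gm, gm, gm], ![3, 2, 1, 1, 1, 1],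
    ![fun _ => Sum.inr 0, ![Sum.inl 0, Sum.inr 0], ![Sum.inl 1, Sum.inr 0],
      ![Sum.inl 2, Sum.inr 0], ![Sum.inl 3, Sum.inr 0], ![Sum.inl 4, Sum.inr 0]], 0, ?_, ?_, ?_⟩
  · intro i
    fin_cases i
    · exact gp_submodular
    all_goals exact gm_submodular
  · intro i
    fin_cases i <;> norm_num
  · intro x
    have key : ∀ y : B 1, ∑ i : Fin 6, (![3, 2, 1, 1, 1, 1] : Fin 6 → ℝ) i *
        (![gp, gm, gm, gm, gm, gm] : Fin 6 → B 2 → ℝ) i (fun b => Sum.elim x y
          ((![fun _ => Sum.inr 0, ![Sum.inl 0, Sum.inr 0], ![Sum.inl 1, Sum.inr 0],
      ![Sum.inl 2, Sum.inr 0], ![Sum.inl 3, Sum.inr 0], ![Sum.inl 4, Sum.inr 0]] :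
        Fin 6 → Fin 2 → Fin (n + 5) ⊕ Fin 1) i b)) + 0 = t (y 0) * (3 - wt x) := by
      intro y
      rw [Fin.sum_univ_six]
      simp [gp, gm, wt]
      ring
    constructor
    · rcases le_total 0 (3 - wt x) with h | h
      · refine ⟨fun _ => false, ?_⟩
        simp only
        rw [key]
        simp [t, F, h]
      · refine ⟨fun _ => true, ?_⟩
        simp only
        rw [key]
        simp only [t, F, min_eq_right h]
        simp
    · rintro _ ⟨y, rfl⟩
      simp only
      rw [key]
      unfold F t
      split_ifs
      · rw [one_mul]; exact min_le_right _ _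
      · rw [zero_mul]; exact min_le_left _ _

/-! ## The first five coordinates -/

/-- The point with the given first five coordinates, the others being `0`. -/
def pt (n : ℕ) (a b c d e : Bool) : B (n + 5) := fun i =>
  if (i : ℕ) = 0 then a else if (i : ℕ) = 1 then b else if (i : ℕ) = 2 then c
    else if (i : ℕ) = 3 then d else if (i : ℕ) = 4 then e else false

theorem pt_inf (n : ℕ) (a b c d e a' b' c' d' e' : Bool) :
    pt n a b c d e ⊓ pt n a' b' c' d' e' =
      pt n (a && a') (b && b') (c && c') (d && d') (e && e') := by
  funext i
  simp only [pt, Pi.inf_apply]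
  split_ifs <;> rfl

theorem pt_sup (n : ℕ) (a b c d e a' b' c' d' e' : Bool) :
    pt n a b c d e ⊔ pt n a' b' c' d' e' =
      pt n (a || a') (b || b') (c || c') (d || d') (e || e') := by
  funext i
  simp only [pt, Pi.sup_apply]
  split_ifs <;> rfl

theorem wt_pt (n : ℕ) (a b c d e : Bool) :
    wt (pt n a b c d e) = 2 * t a + t b + t c + t d + t e := by
  have h0 : ((0 : Fin (n + 5)) : ℕ) = 0 := rfl
  have h1 : ((1 : Fin (n + 5)) : ℕ) = 1 := by
    show 1 % (n + 5) = 1
    exact Nat.mod_eq_of_lt (by omega)
  have h2 : ((2 : Fin (n + 5)) : ℕ) = 2 := by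
    show 2 % (n + 5) = 2
    exact Nat.mod_eq_of_lt (by omega)
  have h3 : ((3 : Fin (n + 5)) : ℕ) = 3 := by
    show 3 % (n + 5) = 3
    exact Nat.mod_eq_of_lt (by omega)
  have h4 : ((4 : Fin (n + 5)) : ℕ) = 4 := by
    show 4 % (n + 5) = 4
    exact Nat.mod_eq_of_lt (by omega)
  simp only [wt, pt, h0, h1, h2, h3, h4]
  norm_num

/-- `0` or `1` -/
def tz (b : Bool) : ℤ := if b then 1 else 0

/-- The integer valued form of `F` on the first five coordinates. -/
def fz (a b c d e : Bool) : ℤ := min 0 (3 - (2 * tz a + tz b + tz c + tz d + tz e))

theorem t_eq (b : Bool) : t b = (tz b : ℝ) := by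
  unfold t tz; split_ifs <;> simp

theorem F_pt (n : ℕ) (a b c d e : Bool) : F n (pt n a b c d e) = (fz a b c d e : ℝ) := by
  unfold F fz
  rw [wt_pt]
  simp only [t_eq]
  push_cast
  rfl

theorem pt_le (n : ℕ) (a b c d e a' b' c' d' e' : Bool)
    (h : (a ≤ a' ∧ b ≤ b') ∧ (c ≤ c' ∧ d ≤ d' ∧ e ≤ e')) :
    pt n a b c d e ≤ pt n a' b' c' d' e' := by
  intro i
  simp only [pt]
  split_ifs
  · exact h.1.1
  · exact h.1.2
  · exact h.2.1
  · exact h.2.2.1
  · exact h.2.2.2
  · exact le_refl _

/-- A nice function that is modular wherever `F` is, is modular at one more place. -/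
theorem core (n : ℕ) {G : B (n + 5) → ℤ} (hG : Nice G)
    (hz : ∀ u v : B (n + 5), F n u + F n v = F n (u ⊓ v) + F n (u ⊔ v) →
      G u + G v = G (u ⊓ v) + G (u ⊔ v)) :
    G (pt n true true false false false) + G (pt n true false true false false) =
      G (pt n true false false false false) + G (pt n true true true false false) := by
  have z : ∀ a b c d e a' b' c' d' e' : Bool,
      fz a b c d e + fz a' b' c' d' e' =
        fz (a && a') (b && b') (c && c') (d && d') (e && e') +
        fz (a || a') (b || b') (c || c') (d || d') (e || e') →
      G (pt n a b c d e) + G (pt n a' b' c' d' e') =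
        G (pt n (a && a') (b && b') (c && c') (d && d') (e && e')) +
        G (pt n (a || a') (b || b') (c || c') (d || d') (e || e')) := by
    intro a b c d e a' b' c' d' e' h
    have := hz (pt n a b c d e) (pt n a' b' c' d' e')
    rw [pt_inf, pt_sup, F_pt, F_pt, F_pt, F_pt] at this
    exact this (by exact_mod_cast h)
  have s : ∀ a b c d e a' b' c' d' e' : Bool,
        G (pt n (a && a') (b && b') (c && c') (d && d') (e && e')) +
        G (pt n (a || a') (b || b') (c || c') (d || d') (e || e')) ≤
      G (pt n a b c d e) + G (pt n a' b' c' d' e') := by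
    intro a b c d e a' b' c' d' e'
    have := hG.sub (pt n a b c d e) (pt n a' b' c' d' e')
    rw [pt_inf, pt_sup] at this
    exact this
  rcases hG.mono with hm | hm
  · -- monotone
    have z0 := z false false true false true false false false true true (by decide)
    have z1 := z false true false false true false false false true true (by decide)
    have z2 := z false true false false true false false true false true (by decide)
    have z3 := z false true false true false false false false true true (by decide)
    have z4 := z false true false true false false false true true false (by decide)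
    have z5 := z true false true true true false true true true true (by decide)
    have z6 := z true true false true true true false true true true (by decide)
    have z7 := z true true false false true true false false true true (by decide)
    have z8 := z false true false false false false false false false true (by decide)
    have z9 := z true false false false false false true false false false (by decide)
    have z10 := z true true true false false true false true false true (by decide)
    have z11 := z true true false false true true false true false true (by decide)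
    have s0 := s false false false true false false false false false true
    have s1 := s false false true true false false false false true true
    have s2 := s true true false false false true false true false false
    have m0 := hm _ _ (pt_le n false true true true true true true true true true (by decide))
    have m1 := hm _ _ (pt_le n false false true true true false true true true true (by decide))
    have m2 := hm _ _ (pt_le n false true false true true false true true true true (by decide))
    have m3 := hm _ _ (pt_le n false true true false true false true true true true (by decide))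
    have m4 := hm _ _ (pt_le n false true true true false false true true true true (by decide))
    have lo := hG.lo (pt n false false false false false)
    have hi := hG.hi (pt n true true true true true)
    simp only [Bool.and_true, Bool.true_and, Bool.and_false, Bool.false_and, Bool.or_true,
      Bool.true_or, Bool.or_false, Bool.false_or, Bool.and_self, Bool.or_self] at z0 z1 z2 z3 z4 z5 z6 z7 z8 z9 z10 z11 s0 s1 s2
    omega
  · -- antitone
    have z0 := z true true true false false true true false true false (by decide)
    have z1 := z true true true false false true false true true false (by decide)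
    have z2 := z true true false true false true false true true false (by decide)
    have z3 := z true true true false false true false true false true (by decide)
    have z4 := z true true false false true true false true false true (by decide)
    have s0 := s true true true true false true true true false true
    have s1 := s true true true false false true true false false true
    have s2 := s true true false false false true false true false false
    have m0 := hm _ _ (pt_le n false false false false false true false false false false (by decide))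
    have m1 := hm _ _ (pt_le n true false false false false true true false false false (by decide))
    have m2 := hm _ _ (pt_le n true false false false false true false true false false (by decide))
    have m3 := hm _ _ (pt_le n true false false false false true false false true false (by decide))
    have m4 := hm _ _ (pt_le n true false false false false true false false false true (by decide))
    have lo := hG.lo (pt n true true true true true)
    have hi := hG.hi (pt n false false false false false)
    simp only [Bool.and_true, Bool.true_and, Bool.and_false, Bool.false_and, Bool.or_true,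
      Bool.true_or, Bool.or_false, Bool.false_or, Bool.and_self, Bool.or_self] at z0 z1 z2 z3 z4 s0 s1 s2
    omega

theorem F_not_inFanCone (n : ℕ) : ¬ InFanCone (F n) := by
  rintro ⟨r, c, φ, κ, hc, hφ, hF⟩
  have hN : ∀ i, ∃ G : B (n + 5) → ℤ, Nice G ∧ ∀ x, φ i x = G x := fun i =>
    (hφ i).elim upper_nice lower_nice
  choose G hG hGφ using hN
  have hF' : ∀ x, F n x = ∑ i, c i * (G i x : ℝ) + κ := by
    intro x
    rw [hF]
    congr 1
    exact Finset.sum_congr rfl fun i _ => by rw [hGφ]
  have hD : ∀ u v : B (n + 5), F n u + F n v - F n (u ⊓ v) - F n (u ⊔ v) =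
      ∑ i, c i * ((G i u + G i v - G i (u ⊓ v) - G i (u ⊔ v) : ℤ) : ℝ) := by
    intro u v
    rw [hF', hF', hF', hF']
    push_cast
    have : ∀ a b c d : ℝ, (a + κ) + (b + κ) - (c + κ) - (d + κ) = a + b - c - d := by
      intros; ring
    rw [this, ← Finset.sum_add_distrib, ← Finset.sum_sub_distrib, ← Finset.sum_sub_distrib]
    exact Finset.sum_congr rfl fun i _ => by ring
  have hterm : ∀ i, ∀ u v : B (n + 5),
      0 ≤ c i * ((G i u + G i v - G i (u ⊓ v) - G i (u ⊔ v) : ℤ) : ℝ) := by
    intro i u v
    apply mul_nonneg (hc i)
    have := (hG i).sub u v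
    exact_mod_cast (by omega : 0 ≤ G i u + G i v - G i (u ⊓ v) - G i (u ⊔ v))
  have hzero : ∀ i, 0 < c i → ∀ u v : B (n + 5), F n u + F n v = F n (u ⊓ v) + F n (u ⊔ v) →
      G i u + G i v = G i (u ⊓ v) + G i (u ⊔ v) := by
    intro i hi u v h
    have h1 := hD u v
    have h2 : F n u + F n v - F n (u ⊓ v) - F n (u ⊔ v) = 0 := by linarith
    rw [h2] at h1
    have h3 := (Finset.sum_eq_zero_iff_of_nonneg (fun i _ => hterm i u v)).1 h1.symm i
      (Finset.mem_univ i)
    rcases mul_eq_zero.1 h3 with h4 | h4
    · exact absurd h4 hi.ne'
    · have h5 : G i u + G i v - G i (u ⊓ v) - G i (u ⊔ v) = 0 := by exact_mod_cast h4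
      omega
  have hfin := hD (pt n true true false false false) (pt n true false true false false)
  have h0 : ∀ i ∈ Finset.univ, c i * ((G i (pt n true true false false false) +
      G i (pt n true false true false false) -
      G i (pt n true true false false false ⊓ pt n true false true false false) -
      G i (pt n true true false false false ⊔ pt n true false true false false) : ℤ) : ℝ) = 0 := by
    intro i _
    rcases (hc i).lt_or_eq with hi | hi
    · have h1 := core n (hG i) (hzero i hi)
      rw [pt_inf, pt_sup]
      have h2 : (G i (pt n true true false false false) +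
      G i (pt n true false true false false) -
      G i (pt n (true && true) (true && false) (false && true) (false && false) (false && false)) -
      G i (pt n (true || true) (true || false) (false || true) (false || false)
        (false || false)) : ℤ) = 0 := by
        simp only [Bool.and_true, Bool.and_false, Bool.false_and,
          Bool.true_or, Bool.or_false, Bool.or_true, Bool.and_self, Bool.or_self]
        omega
      rw [h2]
      simp
    · rw [← hi, zero_mul]
  rw [Finset.sum_eq_zero h0, pt_inf, pt_sup, F_pt, F_pt, F_pt, F_pt] at hfin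
  have h9 : fz true true false false false + fz true false true false false -
    fz (true && true) (true && false) (false && true) (false && false) (false && false) -
    fz (true || true) (true || false) (false || true) (false || false) (false || false) = 1 := by
    decide
  have h10 : ((fz true true false false false + fz true false true false false -
    fz (true && true) (true && false) (false && true) (false && false) (false && false) -
    fz (true || true) (true || false) (false || true) (false || false) (false || false) : ℤ) : ℝ)
      = 0 := by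
    push_cast
    exact hfin
  rw [h9] at h10
  norm_num at h10

/-- **The conjecture fails for every `k ≥ 5`**: there is a submodular function on `{0, 1} ^ k` that is
expressible by binary submodular functions (with one extra variable) but is not a nonnegative
combination of fans plus a constant. -/
theorem result : ∀ k : ℕ, 5 ≤ k →
    ∃ f : B k → ℝ, Submodular f ∧ Expressible f ∧ ¬ InFanCone f := by
  intro k hk
  obtain ⟨n, rfl⟩ := Nat.exists_eq_add_of_le' hk
  exact ⟨F n, F_submodular n, F_expressible n, F_not_inFanCone n⟩

end Pool.Agent.Results.MP_09575c_lc.FailsFromFive
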